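import Pool.Agent.CG.Grp

/-!
# CG: averages over balls (definition)
-/

set_option autoImplicit false

namespace Pool.Agent.CG

open MeasureTheory Set Filter Topology
open scoped ContDiff ENNReal

variable {N m : ℕ}

/-- The average of `f` over the ball `B x r`. -/
noncomputable def av (G : Carnot N m) (x : Pt N) (r : ℝ) (f : Pt N → ℝ) : ℝ :=
  (volume.real (G.B x r))⁻¹ * ∫ y in G.B x r, f y

end Pool.Agent.CG
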