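import Pool.Agent.CG.UU
import Pool.Agent.CG.F.Basic
import Pool.Agent.CG.F.Trunc
import Pool.Agent.CG.F.Gg
import Pool.Agent.CG.F.Reg

/-!
# CG, PART F: structure classes (see `F/Def, F/Basic, F/Trunc, F/Gg, F/Reg`)
-/
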