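import Pool.Agent.CG.J.Fin

/-!
# CG interface, PART J: compactness of solutions
(proved: modules J/Arz, LimA, Tst, Cau, SubU, LimF, LimS, assembly J/Fin)
-/

set_option autoImplicit false

namespace Pool.Agent.CG

open MeasureTheory Set Filter Topology
open scoped ContDiff ENNReal

variable {N m : ℕ}

theorem compactness (G : Carnot N m) {a b L : ℝ} (ha0 : 0 ≤ a) (ha : a < 1) (hb : 0 ≤ b) (hL : 1 ≤ L)
    (A : ℕ → Hv m → Hv m) (u : ℕ → Pt N → ℝ) (F : ℕ → Pt N → Hv m) (hA : ∀ n, Nrm a b L (A n))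
    (R : ℕ → ℝ) (hR : Tendsto R atTop atTop) (hS : ∀ n, Sol G 2 (G.B 0 (R n)) (A n) (u n) (F n))
    (hF : ∀ n, ∀ᵐ x, x ∈ G.B 0 (R n) → ‖F n x‖ ≤ 1) :
    ∃ s : ℕ → ℕ, StrictMono s ∧ ∃ (A' : Hv m → Hv m) (u' : Pt N → ℝ) (F' : Pt N → Hv m),
      Nrm a b L A' ∧ Sol G 2 univ A' u' F' ∧ (∀ᵐ x, ‖F' x‖ ≤ 1) ∧
      ∀ r : ℝ, Tendsto (fun n => ∫ x in G.B 0 r, ‖F (s n) x - F' x‖ ^ 2) atTop (𝓝 0) :=
  compactness' G ha0 ha hb hL A u F hA R hR hS hF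

end Pool.Agent.CG
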