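import Pool.Agent.CG.Grp

/-!
# CG: the class `UU` and the space `HW0` (definitions)
-/

set_option autoImplicit false

namespace Pool.Agent.CG

open MeasureTheory Set Filter Topology
open scoped ContDiff ENNReal

variable {N m : ℕ}

/-- Lipschitz and strongly monotone maps. -/
structure UU (lam Lam : ℝ) (B : Hv m → Hv m) : Prop where
  mono : ∀ ξ ζ, lam * ‖ξ - ζ‖ ^ 2 ≤ inner ℝ (B ξ - B ζ) (ξ - ζ)
  lip : ∀ ξ ζ, ‖B ξ - B ζ‖ ≤ Lam * ‖ξ - ζ‖

/-- The space `HW^{1,q}_0(D)` (functions extended by zero, with their gradients). -/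
structure HW0 (G : Carnot N m) (q : ℝ≥0∞) (D : Set (Pt N)) (z : Pt N → ℝ) (Z : Pt N → Hv m) : Prop where
  memz : MemLp z q volume
  memZ : MemLp Z q volume
  approx : ∃ φ : ℕ → Pt N → ℝ, (∀ n, Test D (φ n)) ∧
    Tendsto (fun n => eLpNorm (fun x => φ n x - z x) q volume) atTop (𝓝 0) ∧
    Tendsto (fun n => eLpNorm (fun x => G.grad (φ n) x - Z x) q volume) atTop (𝓝 0)

end Pool.Agent.CG
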