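import Pool.Agent.CG.B.Trf
import Pool.Agent.CG.B.Chain
import Pool.Agent.CG.B.Poin
import Pool.Agent.CG.B.Lip

/-!
# CG, PART B: Sobolev calculus (all statements are in the files `B/*.lean`)
-/
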