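import Pool.Agent.CG.C.Quasi
import Pool.Agent.CG.C.Hol

/-!
# CG, PART C: De Giorgi classes (all statements are in the files `C/*.lean`)
-/
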