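import Mathlib

/-!
# Project CG (MP_040330_an): definitions
Carnot groups in exponential coordinates, horizontal derivatives, weak gradients, weak solutions.
-/

namespace Pool.Agent.CG

open MeasureTheory Set Filter Topology
open scoped ContDiff

/-- Points of the group: coordinates. -/
abbrev Pt (N : ℕ) : Type := Fin N → ℝ

/-- Horizontal vectors. -/
abbrev Hv (m : ℕ) : Type := EuclideanSpace ℝ (Fin m)

/-- The coordinate dilations with weights `deg`. -/
def dilate {N : ℕ} (deg : Fin N → ℕ) (r : ℝ) (x : Pt N) : Pt N := fun i => r ^ deg i * x i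

/-- The `j`-th layer: the span of the coordinate vectors of weight `j`. -/
def layerOf {N : ℕ} (deg : Fin N → ℕ) (j : ℕ) : Submodule ℝ (Pt N) where
  carrier := {x | ∀ i, deg i ≠ j → x i = 0}
  add_mem' := by
    intro a b ha hb i hi
    simp [ha i hi, hb i hi]
  zero_mem' := by
    intro i _
    rfl
  smul_mem' := by
    intro c x hx i hi
    simp [hx i hi]

/-- The Lie bracket, in exponential coordinates, of a group law `mul`: the mixed second
derivative at `0` of `(s x)(t y) - (t y)(s x)`. -/
noncomputable def bracketOf {N : ℕ} (mul : Pt N → Pt N → Pt N) (x y : Pt N) : Pt N :=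
  deriv (fun s : ℝ => deriv (fun t : ℝ => mul (s • x) (t • y) - mul (t • y) (s • x)) 0) 0

/-- A Carnot group of topological dimension `N` whose first layer has dimension `m`, written in
exponential coordinates with respect to a basis adapted to the stratification:
a smooth group law on `ℝ^N` for which the lines `t ↦ t x` are the one-parameter subgroups,
the coordinate dilations are automorphisms, and `[V_1, V_j] = V_{j+1}` for all `j ≥ 1`.
`hor` numbers the coordinates of weight one, i.e. the basis `X_1, ..., X_m` of `V_1`. -/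
structure Carnot (N m : ℕ) where
  /-- the weights of the coordinates -/
  deg : Fin N → ℕ
  /-- the coordinates of weight one -/
  hor : Fin m → Fin N
  /-- the group law -/
  mul : Pt N → Pt N → Pt N
  deg_pos : ∀ i, 1 ≤ deg i
  hor_inj : Function.Injective hor
  hor_iff : ∀ i, deg i = 1 ↔ ∃ k, hor k = i
  smooth : ContDiff ℝ ∞ (fun q : Pt N × Pt N => mul q.1 q.2)
  assoc : ∀ x y z, mul (mul x y) z = mul x (mul y z)
  exp : ∀ (x : Pt N) (s t : ℝ), mul (s • x) (t • x) = (s + t) • x
  dil : ∀ r : ℝ, 0 < r → ∀ x y,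
    mul (dilate deg r x) (dilate deg r y) = dilate deg r (mul x y)
  gen : ∀ j, 1 ≤ j →
    Submodule.span ℝ {z | ∃ x ∈ layerOf deg 1, ∃ y ∈ layerOf deg j, z = bracketOf mul x y} =
      layerOf deg (j + 1)

namespace Carnot

variable {N m : ℕ} (G : Carnot N m)

/-- The basis vector `e_k` of the first layer. -/
def e (k : Fin m) : Pt N := Pi.single (G.hor k) 1

/-- The dilation of the group. -/
def del (r : ℝ) (x : Pt N) : Pt N := dilate G.deg r x

/-- The homogeneous dimension. -/
def Q : ℕ := ∑ i, G.deg i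

/-- The left-invariant horizontal derivative `X_k φ (x) = d/dt φ (x (t e_k))` at `t = 0`. -/
noncomputable def X (k : Fin m) (φ : Pt N → ℝ) (x : Pt N) : ℝ :=
  deriv (fun t : ℝ => φ (G.mul x (t • G.e k))) 0

/-- The horizontal gradient of a smooth function. -/
noncomputable def grad (φ : Pt N → ℝ) (x : Pt N) : Hv m :=
  WithLp.toLp 2 (fun k => G.X k φ x)

end Carnot

/-- Test functions on an open set: smooth with compact support in `Ω`. -/
structure Test {N : ℕ} (Ω : Set (Pt N)) (φ : Pt N → ℝ) : Prop where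
  smooth : ContDiff ℝ ∞ φ
  cpt : HasCompactSupport φ
  sub : tsupport φ ⊆ Ω

/-- Local integrability of exponent `q` on `Ω`. -/
def LqLoc {N : ℕ} {F : Type*} [NormedAddCommGroup F] (q : ENNReal) (Ω : Set (Pt N))
    (f : Pt N → F) : Prop :=
  ∀ K : Set (Pt N), IsCompact K → K ⊆ Ω → MemLp f q (volume.restrict K)

/-- `u` belongs to the horizontal Sobolev space `HW^{1,q}_loc(Ω)` and `F` is (a representative of)
its distributional horizontal gradient `(X_1 u, ..., X_m u)` in `Ω`. -/
structure HW {N m : ℕ} (G : Carnot N m) (q : ENNReal) (Ω : Set (Pt N)) (u : Pt N → ℝ)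
    (F : Pt N → Hv m) : Prop where
  lq : LqLoc q Ω u
  lqg : LqLoc q Ω F
  weak : ∀ φ : Pt N → ℝ, Test Ω φ → ∀ k, ∫ x, u x * G.X k φ x = - ∫ x, F x k * φ x

/-- `u` (with horizontal gradient `F`) is a weak solution in `Ω` of `∑ X_i A_i(∇_0 u) = 0`,
of class `HW^{1,q}_loc`. -/
structure Sol {N m : ℕ} (G : Carnot N m) (q : ENNReal) (Ω : Set (Pt N)) (A : Hv m → Hv m)
    (u : Pt N → ℝ) (F : Pt N → Hv m) : Prop extends HW G q Ω u F where
  eqn : ∀ φ : Pt N → ℝ, Test Ω φ → ∫ x, inner ℝ (A (F x)) (G.grad φ x) = 0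

end Pool.Agent.CG
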