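import Pool.Agent.CG.M.Str

/-!
# CG: the structure conditions of the problem
-/

set_option autoImplicit false

namespace Pool.Agent.CG

open scoped ContDiff

variable {m : ℕ}

/-- The structure conditions of the problem: `A` is continuous, `C^1` away from the origin, and for
`ξ ≠ 0` the quadratic form of the derivative `DA(ξ)` lies between `λ (δ + |ξ|²)^{(p-2)/2} |η|²` and
`Λ (δ + |ξ|²)^{(p-2)/2} |η|²`; moreover either `DA(ξ)` is symmetric for all `ξ ≠ 0` (as for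
`A = ∇f`), or its operator norm is at most `Λ (δ + |ξ|²)^{(p-2)/2}` for all `ξ ≠ 0`. -/
structure Elliptic (p δ lam Lam : ℝ) (A : Hv m → Hv m) : Prop where
  cont : Continuous A
  diff : ContDiffOn ℝ 1 A {0}ᶜ
  lower : ∀ ξ : Hv m, ξ ≠ 0 → ∀ η : Hv m,
    lam * (δ + ‖ξ‖ ^ 2) ^ ((p - 2) / 2) * ‖η‖ ^ 2 ≤ inner ℝ (fderiv ℝ A ξ η) η
  upper : ∀ ξ : Hv m, ξ ≠ 0 → ∀ η : Hv m,
    inner ℝ (fderiv ℝ A ξ η) η ≤ Lam * (δ + ‖ξ‖ ^ 2) ^ ((p - 2) / 2) * ‖η‖ ^ 2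
  symm_or_bound :
    (∀ ξ : Hv m, ξ ≠ 0 → ∀ η ζ : Hv m,
      inner ℝ (fderiv ℝ A ξ η) ζ = inner ℝ (fderiv ℝ A ξ ζ) η) ∨
    (∀ ξ : Hv m, ξ ≠ 0 → ∀ η : Hv m,
      ‖fderiv ℝ A ξ η‖ ≤ Lam * (δ + ‖ξ‖ ^ 2) ^ ((p - 2) / 2) * ‖η‖)

/-- Cauchy-Schwarz for a nonnegative symmetric form bounded by `B`. -/
theorem norm_le_of_symm {T : Hv m →L[ℝ] Hv m} {B : ℝ} (hs : ∀ η ζ : Hv m, inner ℝ (T η) ζ = inner ℝ (T ζ) η)
    (h0 : ∀ η : Hv m, 0 ≤ inner ℝ (T η) η) (hB : ∀ η : Hv m, inner ℝ (T η) η ≤ B * ‖η‖ ^ 2)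
    (η : Hv m) : ‖T η‖ ≤ B * ‖η‖ := by
  rcases eq_or_ne η 0 with rfl | hη
  · simp
  rcases eq_or_ne (T η) 0 with h | hT
  · rw [h, norm_zero]
    have hn : 0 < ‖η‖ ^ 2 := by positivity
    have h1 := (h0 η).trans (hB η)
    have hB0 : 0 ≤ B := by
      by_contra hneg
      push Not at hneg
      nlinarith
    positivity
  have hn : 0 < ‖η‖ := norm_pos_iff.2 hη
  have hTn : 0 < ‖T η‖ := norm_pos_iff.2 hT
  -- discriminant
  have hq : ∀ t : ℝ, 0 ≤ inner ℝ (T (T η)) (T η) * (t * t) + (2 * inner ℝ (T η) (T η)) * t +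
      inner ℝ (T η) η := by
    intro t
    have h1 := h0 (η + t • T η)
    have h2 : inner ℝ (T (η + t • T η)) (η + t • T η) = inner ℝ (T (T η)) (T η) * (t * t) +
        (2 * inner ℝ (T η) (T η)) * t + inner ℝ (T η) η := by
      rw [map_add, map_smul, inner_add_left, inner_add_right, inner_add_right, inner_smul_left,
        inner_smul_left, inner_smul_right, inner_smul_right, hs (T η) η]
      simp only [conj_trivial]
      ring
    rwa [h2] at h1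
  have hd := discrim_le_zero hq
  rw [discrim] at hd
  have e1 : inner ℝ (T η) (T η) = ‖T η‖ ^ 2 := real_inner_self_eq_norm_sq _
  rw [e1] at hd
  have b1 := hB η
  have b2 := hB (T η)
  have c1 := h0 η
  have c2 := h0 (T η)
  have hB0 : 0 ≤ B := by
    by_contra hneg
    push Not at hneg
    nlinarith [sq_nonneg ‖η‖, mul_pos hn hn]
  have key : ‖T η‖ ^ 2 * ‖T η‖ ^ 2 ≤ (B * ‖T η‖ ^ 2) * (B * ‖η‖ ^ 2) := by
    have h3 : ‖T η‖ ^ 2 * ‖T η‖ ^ 2 ≤ inner ℝ (T (T η)) (T η) * inner ℝ (T η) η := by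
      nlinarith
    exact h3.trans (mul_le_mul b2 b1 c1 (by positivity))
  have hTsq : 0 < ‖T η‖ ^ 2 := by positivity
  have k2 : ‖T η‖ ^ 2 ≤ (B * ‖η‖) ^ 2 := by
    have : ‖T η‖ ^ 2 * ‖T η‖ ^ 2 ≤ ‖T η‖ ^ 2 * (B * ‖η‖) ^ 2 := by
      calc ‖T η‖ ^ 2 * ‖T η‖ ^ 2 ≤ (B * ‖T η‖ ^ 2) * (B * ‖η‖ ^ 2) := key
        _ = ‖T η‖ ^ 2 * (B * ‖η‖) ^ 2 := by ring
    exact le_of_mul_le_mul_left this hTsq
  exact le_of_sq_le_sq k2 (by positivity)

theorem Elliptic.structA {p δ lam Lam : ℝ} {A : Hv m → Hv m} (hlam : 0 < lam) (hδ : 0 ≤ δ)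
    (h : Elliptic p δ lam Lam A) : StructA p δ lam Lam A where
  cont := h.cont
  diff := h.diff
  lower := h.lower
  upper := by
    rcases h.symm_or_bound with hs | hb
    · intro ξ hξ η
      refine norm_le_of_symm (T := fderiv ℝ A ξ) (hs ξ hξ) ?_ (h.upper ξ hξ) η
      intro ζ
      refine le_trans ?_ (h.lower ξ hξ ζ)
      positivity
    · exact hb

end Pool.Agent.CG
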