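import Pool.Agent.CG.Defs

/-!
# CG: the step one group `ℝ^m`
-/

set_option autoImplicit false

namespace Pool.Agent.CG

open MeasureTheory Set Filter Topology
open scoped ContDiff ENNReal

/-- The step one Carnot group `ℝ^m`. -/
def euc (m : ℕ) : Carnot m m where
  deg := fun _ => 1
  hor := fun k => k
  mul := fun x y => x + y
  deg_pos := fun _ => le_rfl
  hor_inj := fun _ _ h => h
  hor_iff := fun i => ⟨fun _ => ⟨i, rfl⟩, fun _ => rfl⟩
  smooth := contDiff_fst.add contDiff_snd
  assoc := fun x y z => add_assoc x y z
  exp := fun x s t => (add_smul s t x).symm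
  dil := by
    intro r hr x y
    funext i
    simp [dilate, mul_add]
  gen := by
    intro j hj
    have h0 : layerOf (fun _ : Fin m => 1) (j + 1) = ⊥ := by
      rw [eq_bot_iff]
      intro x hx
      rw [Submodule.mem_bot]
      funext i
      exact hx i (fun h1 : (1 : ℕ) = j + 1 => by omega)
    rw [h0, Submodule.span_eq_bot]
    rintro z ⟨x, _, y, _, rfl⟩
    simp [bracketOf, add_comm]

end Pool.Agent.CG
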