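import Pool.Agent.CG.L.HolB
import Pool.Agent.CG.L.SupB

/-!
# CG interface, sections 6 and 7: (FLAT), (S1), (S3)
-/

set_option autoImplicit false

namespace Pool.Agent.CG

open MeasureTheory Set Filter Topology
open scoped ContDiff ENNReal

variable {N m : ℕ}

/-- (FLAT) flatness at a fixed small scale. -/
theorem flat (G : Carnot N m) {a b L : ℝ} (ha0 : 0 ≤ a) (ha : a < 1) (hb : 0 ≤ b) (hL : 1 ≤ L) {e : ℝ}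
    (he : 0 < e) : ∃ r0 : ℝ, 0 < r0 ∧ r0 < 1 ∧ ∀ A : Hv m → Hv m, Nrm a b L A →
    ∀ (x : Pt N) (R : ℝ), 0 < R → ∀ (u : Pt N → ℝ) (F : Pt N → Hv m), Sol G 2 (G.B x R) A u F →
    (∀ᵐ y, y ∈ G.B x R → ‖F y‖ ≤ 1) →
    ∃ v : Hv m, ‖v‖ ≤ 1 ∧ av G x (r0 * R) (fun y => ‖F y - v‖ ^ 2) ≤ e :=
  Pool.Agent.CG.L.flat G ha0 ha hb hL he

/-- (S1) the sup bound for the energy density. -/
theorem supB (G : Carnot N m) {a b L : ℝ} (ha0 : 0 ≤ a) (ha : a < 1) (hb : 0 ≤ b) (hL : 1 ≤ L) :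
    ∃ C : ℝ, 0 < C ∧ ∀ (W : ℝ → ℝ) (A : Hv m → Hv m), Wt a b W → AA W L A →
    ∀ (x : Pt N) (R : ℝ), 0 < R → ∀ (u : Pt N → ℝ) (F : Pt N → Hv m), Sol G 2 (G.B x R) A u F →
    ContinuousOn F (G.B x R) → (∃ M : ℝ, ∀ y ∈ G.B x R, ‖F y‖ ≤ M) →
    ∀ y ∈ G.B x (R / 2), gg W ‖F y‖ ≤ C * av G x R (fun z => gg W ‖F z‖) :=
  Pool.Agent.CG.L.supB G ha0 ha hb hL

/-- (S3) the Hölder bound for normalised solutions with continuous gradient. -/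
theorem holB (G : Carnot N m) {a b L : ℝ} (ha0 : 0 ≤ a) (ha : a < 1) (hb : 0 ≤ b) (hL : 1 ≤ L) :
    ∃ α : ℝ, 0 < α ∧ α < 1 ∧ ∃ C : ℝ, 0 < C ∧ ∀ A : Hv m → Hv m, Nrm a b L A →
    ∀ (x : Pt N) (R : ℝ), 0 < R → ∀ (u : Pt N → ℝ) (F : Pt N → Hv m), Sol G 2 (G.B x R) A u F →
    ContinuousOn F (G.B x R) → (∀ y ∈ G.B x R, ‖F y‖ ≤ 1) →
    ∀ y ∈ G.B x (R / 2), ∀ z ∈ G.B x (R / 2), ‖F y - F z‖ ≤ C * (G.di y z / R) ^ α :=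
  Pool.Agent.CG.L.holB G ha0 ha hb hL

end Pool.Agent.CG
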