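import Pool.Agent.CG.A.IntX
import Pool.Agent.CG.A.Cmp
import Pool.Agent.CG.A.Cut

/-!
# CG, PART A: geometry of the group.  The statements are in the files
`A/Tri, A/Mp, A/Del, A/Der, A/IntX, A/Brk, A/EvB, A/Word, A/Ell, A/Ball, A/Cmp, A/Param, A/Cut`.
-/
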