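import Pool.Agent.CG.Defs

/-!
# Project CG: group lemmas (proved)
-/

namespace Pool.Agent.CG

open MeasureTheory Set Filter Topology
open scoped ContDiff

namespace Carnot

variable {N m : ℕ} (G : Carnot N m)

theorem zero_mul (x : Pt N) : G.mul 0 x = x := by
  have h := G.exp x 0 1
  simpa using h

theorem mul_zero (x : Pt N) : G.mul x 0 = x := by
  have h := G.exp x 1 0
  simpa using h

theorem mul_neg (x : Pt N) : G.mul x (-x) = 0 := by
  have h := G.exp x 1 (-1)
  simpa using h

theorem neg_mul (x : Pt N) : G.mul (-x) x = 0 := by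
  have h := G.exp x (-1) 1
  simpa using h

theorem neg_mul_cancel (x y : Pt N) : G.mul (-x) (G.mul x y) = y := by
  rw [← G.assoc, G.neg_mul, G.zero_mul]

theorem mul_neg_mul (x y : Pt N) : G.mul x (G.mul (-x) y) = y := by
  rw [← G.assoc, G.mul_neg, G.zero_mul]

theorem mul_mul_neg (x y : Pt N) : G.mul (G.mul x y) (-y) = x := by
  rw [G.assoc, G.mul_neg, G.mul_zero]

theorem mul_neg_mul' (x y : Pt N) : G.mul (G.mul x (-y)) y = x := by
  rw [G.assoc, G.neg_mul, G.mul_zero]

theorem mul_left_cancel {x y z : Pt N} (h : G.mul x y = G.mul x z) : y = z := by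
  rw [← G.neg_mul_cancel x y, h, G.neg_mul_cancel]

theorem mul_right_cancel {x y z : Pt N} (h : G.mul y x = G.mul z x) : y = z := by
  rw [← G.mul_mul_neg y x, h, G.mul_mul_neg]

theorem neg_mul_rev (x y : Pt N) : -(G.mul x y) = G.mul (-y) (-x) := by
  apply G.mul_left_cancel (x := G.mul x y)
  rw [G.mul_neg, G.assoc, G.mul_neg_mul, G.mul_neg]

theorem smul_smul_exp (x : Pt N) (s t : ℝ) : G.mul (s • x) (t • x) = (s + t) • x := G.exp x s t

theorem mul_self (x : Pt N) : G.mul x x = (2 : ℝ) • x := by
  have h := G.exp x 1 1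
  rw [one_smul] at h
  rw [h]
  norm_num

theorem continuous_mul : Continuous (fun q : Pt N × Pt N => G.mul q.1 q.2) := G.smooth.continuous

theorem contDiff_mul {n : WithTop ℕ∞} (hn : n ≤ ∞) :
    ContDiff ℝ n (fun q : Pt N × Pt N => G.mul q.1 q.2) := G.smooth.of_le hn

theorem smooth_left (g : Pt N) : ContDiff ℝ ∞ (fun x => G.mul g x) :=
  G.smooth.comp (contDiff_const.prodMk contDiff_id)

theorem smooth_right (g : Pt N) : ContDiff ℝ ∞ (fun x => G.mul x g) :=
  G.smooth.comp (contDiff_id.prodMk contDiff_const)

theorem continuous_left (g : Pt N) : Continuous (fun x => G.mul g x) := (G.smooth_left g).continuous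

theorem continuous_right (g : Pt N) : Continuous (fun x => G.mul x g) := (G.smooth_right g).continuous

/-- Left translation as a homeomorphism. -/
def homeoL (g : Pt N) : Pt N ≃ₜ Pt N where
  toFun := fun x => G.mul g x
  invFun := fun x => G.mul (-g) x
  left_inv := fun x => G.neg_mul_cancel g x
  right_inv := fun x => G.mul_neg_mul g x
  continuous_toFun := G.continuous_left g
  continuous_invFun := G.continuous_left (-g)

/-- Right translation as a homeomorphism. -/
def homeoR (g : Pt N) : Pt N ≃ₜ Pt N where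
  toFun := fun x => G.mul x g
  invFun := fun x => G.mul x (-g)
  left_inv := fun x => G.mul_mul_neg x g
  right_inv := fun x => G.mul_neg_mul' x g
  continuous_toFun := G.continuous_right g
  continuous_invFun := G.continuous_right (-g)

@[simp] theorem homeoL_apply (g x : Pt N) : G.homeoL g x = G.mul g x := rfl

@[simp] theorem homeoR_apply (g x : Pt N) : G.homeoR g x = G.mul x g := rfl

theorem del_apply (r : ℝ) (x : Pt N) (i : Fin N) : G.del r x i = r ^ G.deg i * x i := rfl

theorem del_mul {r : ℝ} (hr : 0 < r) (x y : Pt N) :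
    G.del r (G.mul x y) = G.mul (G.del r x) (G.del r y) := (G.dil r hr x y).symm

theorem del_one (x : Pt N) : G.del 1 x = x := by
  funext i
  simp [del_apply]

theorem del_del (r s : ℝ) (x : Pt N) : G.del r (G.del s x) = G.del (r * s) x := by
  funext i
  simp [del_apply, mul_pow, mul_assoc]

theorem del_neg (r : ℝ) (x : Pt N) : G.del r (-x) = -(G.del r x) := by
  funext i
  simp [del_apply]

theorem del_zero (r : ℝ) : G.del r (0 : Pt N) = 0 := by
  funext i
  simp [del_apply]

theorem del_add (r : ℝ) (x y : Pt N) : G.del r (x + y) = G.del r x + G.del r y := by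
  funext i
  simp [del_apply, mul_add]

theorem del_smul (r c : ℝ) (x : Pt N) : G.del r (c • x) = c • G.del r x := by
  funext i
  simp only [del_apply, Pi.smul_apply, smul_eq_mul]
  ring

theorem del_inv_del {r : ℝ} (hr : r ≠ 0) (x : Pt N) : G.del r⁻¹ (G.del r x) = x := by
  rw [del_del, inv_mul_cancel₀ hr, del_one]

theorem del_del_inv {r : ℝ} (hr : r ≠ 0) (x : Pt N) : G.del r (G.del r⁻¹ x) = x := by
  rw [del_del, mul_inv_cancel₀ hr, del_one]

theorem deg_hor (k : Fin m) : G.deg (G.hor k) = 1 := (G.hor_iff _).2 ⟨k, rfl⟩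

theorem e_apply (k : Fin m) (i : Fin N) : G.e k i = if i = G.hor k then 1 else 0 := by
  simp [e, Pi.single_apply]

theorem del_e (r : ℝ) (k : Fin m) : G.del r (G.e k) = r • G.e k := by
  funext i
  simp only [del_apply, e_apply, Pi.smul_apply, smul_eq_mul]
  split_ifs with h
  · subst h
    simp [deg_hor]
  · simp

theorem del_smul_e (r t : ℝ) (k : Fin m) : G.del r (t • G.e k) = (r * t) • G.e k := by
  rw [del_smul, del_e, smul_smul, mul_comm]

theorem smooth_del (r : ℝ) : ContDiff ℝ ∞ (G.del r) := by
  rw [contDiff_pi]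
  intro i
  exact contDiff_const.mul (contDiff_apply ℝ ℝ i)

theorem continuous_del (r : ℝ) : Continuous (G.del r) := (G.smooth_del r).continuous

/-- Dilation as a homeomorphism. -/
noncomputable def homeoD (r : ℝ) (hr : r ≠ 0) : Pt N ≃ₜ Pt N where
  toFun := G.del r
  invFun := G.del r⁻¹
  left_inv := fun x => G.del_inv_del hr x
  right_inv := fun x => G.del_del_inv hr x
  continuous_toFun := G.continuous_del r
  continuous_invFun := G.continuous_del r⁻¹

@[simp] theorem homeoD_apply (r : ℝ) (hr : r ≠ 0) (x : Pt N) : G.homeoD r hr x = G.del r x := rfl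

/-- A word in the horizontal one-parameter subgroups. -/
abbrev Wd (m : ℕ) : Type := List (Fin m × ℝ)

/-- Value of a word. -/
def ev : List (Fin m × ℝ) → Pt N
  | [] => 0
  | p :: w => G.mul (p.2 • G.e p.1) (ev w)

/-- Length of a word. -/
def len : List (Fin m × ℝ) → ℝ
  | [] => 0
  | p :: w => |p.2| + len w

@[simp] theorem ev_nil : G.ev [] = 0 := rfl

@[simp] theorem ev_cons (p : Fin m × ℝ) (w : List (Fin m × ℝ)) :
    G.ev (p :: w) = G.mul (p.2 • G.e p.1) (G.ev w) := rfl

@[simp] theorem len_nil : len ([] : List (Fin m × ℝ)) = 0 := rfl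

@[simp] theorem len_cons (p : Fin m × ℝ) (w : List (Fin m × ℝ)) : len (p :: w) = |p.2| + len w := rfl

theorem len_nonneg (w : List (Fin m × ℝ)) : 0 ≤ len w := by
  induction w with
  | nil => simp
  | cons p w ih => simp only [len_cons]; positivity

theorem ev_append (v w : List (Fin m × ℝ)) : G.ev (v ++ w) = G.mul (G.ev v) (G.ev w) := by
  induction v with
  | nil => simp [G.zero_mul]
  | cons p v ih => simp [ih, G.assoc]

theorem len_append (v w : List (Fin m × ℝ)) : len (v ++ w) = len v + len w := by
  induction v with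
  | nil => simp
  | cons p v ih => simp [ih]; ring

theorem ev_single (k : Fin m) (t : ℝ) : G.ev [(k, t)] = t • G.e k := by simp [G.mul_zero]

/-- The inverse word. -/
def winv (w : List (Fin m × ℝ)) : List (Fin m × ℝ) := (w.map (fun p => (p.1, -p.2))).reverse

theorem ev_winv (w : List (Fin m × ℝ)) : G.ev (winv w) = -(G.ev w) := by
  induction w with
  | nil => simp [winv]
  | cons p w ih =>
    have : winv (p :: w) = winv w ++ [(p.1, -p.2)] := by simp [winv]
    rw [this, ev_append, ih, ev_single, ev_cons, neg_mul_rev]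
    simp

theorem len_winv (w : List (Fin m × ℝ)) : len (winv w) = len w := by
  induction w with
  | nil => simp [winv]
  | cons p w ih =>
    have : winv (p :: w) = winv w ++ [(p.1, -p.2)] := by simp [winv]
    rw [this, len_append, ih]
    simp
    ring

/-- The dilated word. -/
def wdel (r : ℝ) (w : List (Fin m × ℝ)) : List (Fin m × ℝ) := w.map (fun p => (p.1, r * p.2))

theorem ev_wdel {r : ℝ} (hr : 0 < r) (w : List (Fin m × ℝ)) : G.ev (wdel r w) = G.del r (G.ev w) := by
  induction w with
  | nil => simp [wdel, G.del_zero]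
  | cons p w ih =>
    have : wdel r (p :: w) = (p.1, r * p.2) :: wdel r w := by simp [wdel]
    rw [this, ev_cons, ih, ev_cons, G.del_mul hr, del_smul_e]

theorem len_wdel {r : ℝ} (hr : 0 ≤ r) (w : List (Fin m × ℝ)) : len (wdel r w) = r * len w := by
  induction w with
  | nil => simp [wdel]
  | cons p w ih =>
    have : wdel r (p :: w) = (p.1, r * p.2) :: wdel r w := by simp [wdel]
    rw [this, len_cons, ih, len_cons, abs_mul, abs_of_nonneg hr]
    ring

/-- The horizontal length of a group element: the infimum of the lengths of the words with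
value `g`. -/
noncomputable def ell (g : Pt N) : ℝ := sInf {l | ∃ w : List (Fin m × ℝ), G.ev w = g ∧ len w = l}

/-- Open balls of the left-invariant metric `ell (x⁻¹ y)`. -/
def B (x : Pt N) (r : ℝ) : Set (Pt N) := {y | G.ell (G.mul (-x) y) < r}

/-- The left-invariant distance. -/
noncomputable def di (x y : Pt N) : ℝ := G.ell (G.mul (-x) y)

/-- Homogeneous size of a point (Euclidean coordinates). -/
noncomputable def hn (g : Pt N) : ℝ := ∑ i, |g i| ^ ((1 : ℝ) / G.deg i)

end Carnot

end Pool.Agent.CG
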