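import Pool.Agent.CG.D.Cover
import Pool.Agent.CG.E.Dir

/-!
# CG interface, PARTS D and E: uniformly elliptic Lipschitz operators
-/

set_option autoImplicit false

namespace Pool.Agent.CG

open MeasureTheory Set Filter Topology
open scoped ContDiff ENNReal

variable {N m : ℕ}

/-- PART D: Hölder continuity of the gradient for the class `UU`. -/
theorem uu_reg (G : Carnot N m) {lam Lam : ℝ} (hlam : 0 < lam) : ∃ β : ℝ, 0 < β ∧ β < 1 ∧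
    ∃ C : ℝ, 0 < C ∧ ∀ (x : Pt N) (R : ℝ), 0 < R → ∀ (B : Hv m → Hv m), UU lam Lam B →
    ∀ (w : Pt N → ℝ) (F : Pt N → Hv m), Sol G 2 (G.B x R) B w F →
    IntegrableOn (fun y => ‖F y‖ ^ 2) (G.B x R) →
    ∃ F' : Pt N → Hv m, (∀ᵐ y, y ∈ G.B x (R / 2) → F y = F' y) ∧
      (∀ y ∈ G.B x (R / 2), ‖F' y‖ ^ 2 ≤ C * (R⁻¹ ^ G.Q * ∫ z in G.B x R, ‖F z‖ ^ 2)) ∧
      ∀ y ∈ G.B x (R / 2), ∀ z ∈ G.B x (R / 2),
        ‖F' y - F' z‖ ^ 2 ≤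
          C * (G.di y z / R) ^ (2 * β) * (R⁻¹ ^ G.Q * ∫ z in G.B x R, ‖F z‖ ^ 2) := by
  exact uu_reg' G hlam

/-- Functions in `HW^{1,q}_0(D)` are Sobolev functions on the whole group ... -/
theorem HW0.hw {G : Carnot N m} {q : ℝ≥0∞} (hq : 1 ≤ q) {D : Set (Pt N)} {z : Pt N → ℝ}
    {Z : Pt N → Hv m} (h : HW0 G q D z Z) : HW G q univ z Z := by
  exact h.hw' hq

/-- ... vanishing outside of `D`. -/
theorem HW0.zero {G : Carnot N m} {q : ℝ≥0∞} (hq : 1 ≤ q) {D : Set (Pt N)} (hD : IsOpen D) {z : Pt N → ℝ}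
    {Z : Pt N → Hv m} (h : HW0 G q D z Z) : ∀ᵐ x, x ∉ D → z x = 0 ∧ Z x = 0 := by
  exact h.zero' hq hD

/-- Testing an equation in `D` with a function of `HW^{1,q}_0(D)`. -/
theorem HW0.test {G : Carnot N m} {p p' : ℝ≥0∞} (hp : 1 ≤ p) (hpp : ENNReal.HolderConjugate p p')
    {D : Set (Pt N)} (hD : IsOpen D) {z : Pt N → ℝ} {Z : Pt N → Hv m} (h : HW0 G p D z Z)
    {H : Pt N → Hv m} (hH : MemLp H p' (volume.restrict D))
    (h0 : ∀ φ : Pt N → ℝ, Test D φ → ∫ x, inner ℝ (H x) (G.grad φ x) = 0) :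
    ∫ x in D, inner ℝ (H x) (Z x) = 0 := by
  exact h.test' hp hpp hD hH h0

/-- Poincaré inequality in `HW^{1,2}_0` of a ball. -/
theorem HW0.poincare (G : Carnot N m) (hm : 0 < m) : ∃ C : ℝ, 0 < C ∧ ∀ (x : Pt N) (R : ℝ), 0 < R →
    ∀ (z : Pt N → ℝ) (Z : Pt N → Hv m), HW0 G 2 (G.B x R) z Z →
    ∫ y, z y ^ 2 ≤ C * R ^ 2 * ∫ y, ‖Z y‖ ^ 2 := by
  exact HW0.poincare' G hm

/-- PART E: existence for the Dirichlet problem. -/
theorem exists_dirichlet (G : Carnot N m) {lam Lam : ℝ} (hlam : 0 < lam) {B : Hv m → Hv m}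
    (hB : UU lam Lam B) (x : Pt N) (R : ℝ) (hR : 0 < R) {Γ : Pt N → Hv m}
    (hΓ : MemLp Γ 2 (volume.restrict (G.B x R))) :
    ∃ (z : Pt N → ℝ) (Z : Pt N → Hv m), HW0 G 2 (G.B x R) z Z ∧
      ∀ φ : Pt N → ℝ, Test (G.B x R) φ → ∫ y, inner ℝ (B (Γ y + Z y)) (G.grad φ y) = 0 := by
  exact exists_dirichlet' G hlam hB x R hR hΓ

end Pool.Agent.CG
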