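import Pool.Agent.CG.K.Fin

/-!
# CG, PART K: Lemma N (non-degenerate regularity)
-/

set_option autoImplicit false

namespace Pool.Agent.CG

open MeasureTheory Set Filter Topology
open scoped ContDiff ENNReal

variable {N m : ℕ}

theorem lemN (G : Carnot N m) {a b L : ℝ} (ha0 : 0 ≤ a) (ha : a < 1) (hb : 0 ≤ b) (hL : 1 ≤ L) {c0 : ℝ}
    (hc0 : 0 < c0) : ∃ β : ℝ, 0 < β ∧ β < 1 ∧ ∃ e0 : ℝ, 0 < e0 ∧ ∃ C : ℝ, 0 < C ∧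
    ∀ A : Hv m → Hv m, Nrm a b L A → ∀ (x : Pt N) (R : ℝ), 0 < R → ∀ (u : Pt N → ℝ) (F : Pt N → Hv m),
    Sol G 2 (G.B x R) A u F → (∀ᵐ y, y ∈ G.B x R → ‖F y‖ ≤ 1) → ∀ v : Hv m, c0 ≤ ‖v‖ →
    av G x R (fun y => ‖F y - v‖ ^ 2) ≤ e0 →
    ∃ F' : Pt N → Hv m, (∀ᵐ y, y ∈ G.B x (R / 2) → F y = F' y) ∧
      ∀ y ∈ G.B x (R / 2), ∀ z ∈ G.B x (R / 2),
        ‖F' y - F' z‖ ≤ C * Real.sqrt (av G x R (fun y => ‖F y - v‖ ^ 2)) * (G.di y z / R) ^ β :=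
  K.lemN' G ha0 ha hb hL hc0

end Pool.Agent.CG
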