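import Pool.Agent.CG.LiouI
import Pool.Agent.CG.I.LemE
import Pool.Agent.CG.I.Top
import Pool.Agent.CG.I.Const
import Pool.Agent.CG.L.Slope

/-!
# CG, PART I: Liouville II, and the Liouville theorem
-/

set_option autoImplicit false

namespace Pool.Agent.CG

open MeasureTheory Set Filter Topology
open scoped ContDiff ENNReal

variable {N m : ℕ}

/-- Liouville II: global solutions on `ℝ^m` with bounded gradient are affine. -/
theorem liouII {a b L : ℝ} (ha0 : 0 ≤ a) (ha : a < 1) (hb : 0 ≤ b) (hL : 1 ≤ L)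
    {A : Hv m → Hv m} (hA : Nrm a b L A) {u : Pt m → ℝ} {F : Pt m → Hv m}
    (hu : Sol (euc m) 2 univ A u F) (hF : ∀ᵐ x, ‖F x‖ ≤ 1) : ∃ v : Hv m, ‖v‖ ≤ 1 ∧ ∀ᵐ x, F x = v := by
  suffices hmain : ∃ v : Hv m, ∀ᵐ x, F x = v by
    obtain ⟨v, hv⟩ := hmain
    obtain ⟨x, hx1, hx2⟩ := (hv.and hF).exists
    exact ⟨v, hx1 ▸ hx2, hv⟩
  have hFm : AEStronglyMeasurable F volume := I.aesm_univ hu.lqg
  obtain ⟨v0, hFv0, -, hv0⟩ := I.exists_top hF
  rcases eq_or_ne v0 0 with h0 | h0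
  · refine ⟨0, ?_⟩
    filter_upwards [hFv0] with x hx
    rw [h0, norm_zero] at hx
    exact norm_le_zero_iff.1 hx
  have hM : 0 < ‖v0‖ := norm_pos_iff.2 h0
  obtain ⟨c, hc⟩ := Pool.Agent.CG.L.nrm_slope hA hM
  have hu' := Pool.Agent.CG.L.sol_slope hu hM c
  set M : ℝ := ‖v0‖ with hMdef
  set F1 : Pt m → Hv m := fun x => M⁻¹ • F x with hF1def
  set ξ : Hv m := M⁻¹ • v0 with hξdef
  have hξ : ‖ξ‖ = 1 := by
    rw [hξdef, norm_smul, norm_inv, norm_norm, inv_mul_cancel₀ hM.ne']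
  have hF1 : ∀ᵐ x, ‖F1 x‖ ≤ 1 := by
    filter_upwards [hFv0] with x hx
    rw [hF1def, norm_smul, norm_inv, norm_norm, inv_mul_le_iff₀ hM, mul_one]
    exact hx
  have hF1m : AEStronglyMeasurable F1 volume := hFm.const_smul M⁻¹
  obtain ⟨β, hβ0, -, e0, he0, C, hC, hN⟩ := lemN (euc m) ha0 ha hb hL one_pos
  have he' : 0 < min (e0 / 8) (1 / 2) := lt_min (by positivity) (by norm_num)
  have he'1 : min (e0 / 8) (1 / 2) < 1 := lt_of_le_of_lt (min_le_right _ _) (by norm_num)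
  obtain ⟨e'', he'', hE⟩ := lemE (m := m) ha0 ha hb hL he' he'1 (η := e0 / 16) (by positivity)
  set e' : ℝ := min (e0 / 8) (1 / 2) with he'def
  have he'8 : e' ≤ e0 / 8 := min_le_left _ _
  -- the set of large slopes
  set T : Set (Pt m) := {x | 1 - e'' < inner ℝ (F1 x) ξ} with hT
  have hTpos : volume T ≠ 0 := by
    intro hT0
    refine hv0 (M * e'') (mul_pos hM he'') (measure_mono_null ?_ hT0)
    intro x hx
    rw [mem_ofPred_eq] at hx
    have h1 : ‖F1 x - ξ‖ < e'' := by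
      have : F1 x - ξ = M⁻¹ • (F x - v0) := by rw [smul_sub]
      rw [this, norm_smul, norm_inv, norm_norm, inv_mul_lt_iff₀ hM]
      exact hx
    have h2 : inner ℝ (F1 x) ξ = 1 + inner ℝ (F1 x - ξ) ξ := by
      rw [inner_sub_left, real_inner_self_eq_norm_sq, hξ]
      ring
    have h3 : |inner ℝ (F1 x - ξ) ξ| ≤ ‖F1 x - ξ‖ := by
      have := abs_real_inner_le_norm (F1 x - ξ) ξ
      rwa [hξ, mul_one] at this
    rw [hT, mem_ofPred_eq, h2]
    have := (abs_le.1 h3).1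
    linarith
  obtain ⟨x0, -, hx0⟩ := exists_mem_forall_mem_nhdsWithin_pos_measure hTpos
  have hball : ∀ r : ℝ, 0 < r → 0 < volume (T ∩ (euc m).B x0 r) := by
    intro r hr
    refine hx0 _ ?_
    refine inter_mem_nhdsWithin T ?_
    exact ((euc m).isOpen_B x0 r).mem_nhds (Pool.Agent.CG.L.mem_B_self (euc m) x0 hr)
  -- the excess is small at all scales
  have hexc : ∀ R : ℝ, 0 < R → av (euc m) x0 R (fun y => ‖F1 y - ξ‖ ^ 2) ≤ e0 := by
    intro R hR
    have hbad : volume.real ((euc m).B x0 R ∩ {y | inner ℝ (F1 y) ξ ≤ 1 - e'}) ≤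
        e0 / 16 * volume.real ((euc m).B x0 R) := by
      by_contra hcon
      push Not at hcon
      have h1 := hE _ hc _ F1 hu' hF1 ξ hξ x0 R hR hcon.le
      refine (hball (R / 4) (by positivity)).ne' (measure_mono_null ?_ h1)
      intro x hx hx1
      exact not_lt.2 (hx1 hx.2) hx.1
    refine (I.excess (euc m) hF1m hF1 hξ he' hR hbad).trans ?_
    linarith
  obtain ⟨v, hv⟩ := I.ae_const (euc m) (F := F1) (x0 := x0) (C := C * Real.sqrt e0) hβ0 (by
    intro R hR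
    obtain ⟨F', h1, h2⟩ := hN _ hc x0 R hR _ F1 (Pool.Agent.CG.L.sol_mono hu' (subset_univ _))
      (hF1.mono fun _ h _ => h) ξ hξ.ge (hexc R hR)
    refine ⟨F', h1, ?_⟩
    intro y hy z hz
    refine (h2 y hy z hz).trans ?_
    have h3 : 0 ≤ ((euc m).di y z / R) ^ β :=
      Real.rpow_nonneg (div_nonneg ((euc m).di_nonneg y z) hR.le) β
    exact mul_le_mul_of_nonneg_right
      (mul_le_mul_of_nonneg_left (Real.sqrt_le_sqrt (hexc R hR)) hC.le) h3)
  refine ⟨M • v, ?_⟩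
  filter_upwards [hv] with x hx
  rw [← hx, hF1def, smul_smul, mul_inv_cancel₀ hM.ne', one_smul]

/-- Projections on the horizontal coordinates preserve null sets. -/
theorem ae_comp_hor (G : Carnot N m) {s : Set (Pt m)} (hs : ∀ᵐ y, y ∈ s) :
    ∀ᵐ x : Pt N, (fun k => x (G.hor k)) ∈ s := by
  let Lp : Pt N →ₗ[ℝ] Pt m := LinearMap.funLeft ℝ ℝ G.hor
  have hsurj : Function.Surjective Lp := LinearMap.funLeft_surjective_of_injective ℝ ℝ _ G.hor_inj
  obtain ⟨c, -, hc⟩ := Lp.exists_map_addHaar_eq_smul_addHaar (volume : Measure (Pt N))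
    (volume : Measure (Pt m)) hsurj
  have hmeas : Measurable Lp := Lp.continuous_of_finiteDimensional.measurable
  have h0 : (Measure.map Lp volume) sᶜ = 0 := by
    rw [hc, Measure.smul_apply]
    have : volume sᶜ = 0 := hs
    rw [this, smul_zero]
  have h1 : ∀ᵐ y ∂(Measure.map Lp (volume : Measure (Pt N))), y ∈ s := h0
  exact ae_of_ae_map hmeas.aemeasurable h1

/-- The Liouville theorem: global solutions with bounded horizontal gradient are affine. -/
theorem liouville (G : Carnot N m) {a b L : ℝ} (ha0 : 0 ≤ a) (ha : a < 1) (hb : 0 ≤ b) (hL : 1 ≤ L)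
    {A : Hv m → Hv m} (hA : Nrm a b L A) {u : Pt N → ℝ} {F : Pt N → Hv m}
    (hu : Sol G 2 univ A u F) (hF : ∀ᵐ x, ‖F x‖ ≤ 1) : ∃ v : Hv m, ‖v‖ ≤ 1 ∧ ∀ᵐ x, F x = v := by
  obtain ⟨U, F', hU, hF', hFF'⟩ := liouI G ha0 ha hb hL hA hu hF
  obtain ⟨v, hv, hv'⟩ := liouII ha0 ha hb hL hA hU hF'
  refine ⟨v, hv, ?_⟩
  filter_upwards [hFF', ae_comp_hor G (s := {y | F' y = v}) hv'] with x h1 h2
  rw [h1]
  exact h2

end Pool.Agent.CG
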