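import Pool.Agent.CG.H.Layer
import Pool.Agent.CG.H.Desc1
import Pool.Agent.CG.H.Desc2

/-!
# CG, PART H: Liouville I (assembly)
-/

set_option autoImplicit false

namespace Pool.Agent.CG

open MeasureTheory Set Filter Topology
open scoped ContDiff ENNReal

variable {N m : ℕ}

/-- Liouville I: a global solution with bounded gradient depends on the horizontal coordinates only,
and is a solution on `ℝ^m`. -/
theorem liouI (G : Carnot N m) {a b L : ℝ} (ha0 : 0 ≤ a) (ha : a < 1) (hb : 0 ≤ b) (hL : 1 ≤ L)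
    {A : Hv m → Hv m} (hA : Nrm a b L A) {u : Pt N → ℝ} {F : Pt N → Hv m}
    (hu : Sol G 2 univ A u F) (hF : ∀ᵐ x, ‖F x‖ ≤ 1) :
    ∃ (U : Pt m → ℝ) (F' : Pt m → Hv m), Sol (euc m) 2 univ A U F' ∧ (∀ᵐ y, ‖F' y‖ ≤ 1) ∧
      ∀ᵐ x : Pt N, F x = F' (fun k => x (G.hor k)) := by
  have hM := minS_of_nrm ha0 ha hb hL hA
  obtain ⟨u', hu'⟩ := exists_gs hu hF
  obtain ⟨U, F', hUc, hU, hb', -, hF'⟩ := desc_grad G hu' (fun x y h => dep_hor G hM hu' x y h)
  refine ⟨U, F', ⟨hU, ?_⟩, hb', hF'⟩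
  intro ψ hψ
  refine desc_eqn G hM.cont ?_ hb' hF' hu.eqn ψ hψ
  -- measurability of `F'` from local integrability
  have h1 : ∀ K : Set (Pt m), IsCompact K → AEStronglyMeasurable F' (volume.restrict K) :=
    fun K hK => (hU.lqg K hK (subset_univ K)).1
  have h2 : AEStronglyMeasurable F' (volume.restrict (⋃ n : ℕ, Metric.closedBall (0 : Pt m) n)) := by
    rw [aestronglyMeasurable_iUnion_iff]
    intro n
    exact h1 _ (isCompact_closedBall _ _)
  have h3 : (⋃ n : ℕ, Metric.closedBall (0 : Pt m) n) = univ := by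
    rw [eq_univ_iff_forall]
    intro x
    obtain ⟨n, hn⟩ := exists_nat_ge (dist x 0)
    exact mem_iUnion.2 ⟨n, hn⟩
  rwa [h3, Measure.restrict_univ] at h2

end Pool.Agent.CG
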