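import Pool.Agent.CG.Flat
import Pool.Agent.CG.M.Loc
import Pool.Agent.CG.M.Str
import Pool.Agent.CG.M.Reg

/-!
# CG interface, PART M (section 8): weak solutions of class `HW^{1,p}`

`pw p c δ t = c (δ + t^2)^{(p-2)/2}` is the weight of the problem (`CG/M/Pw.lean`, with `pw_wt`);
`StructA`, `structA_AA` are in `CG/M/Str.lean`, `weak_local` in `CG/M/Loc.lean`.
-/

set_option autoImplicit false

namespace Pool.Agent.CG

open MeasureTheory Set Filter Topology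
open scoped ContDiff ENNReal

variable {N m : ℕ}

/-- The final theorem (differential form, operator norm bound). -/
theorem weak_reg (G : Carnot N m) {p lam Lam : ℝ} (hp : 1 < p) (hlam : 0 < lam) :
    ∃ α : ℝ, 0 < α ∧ α < 1 ∧ ∀ (δ : ℝ), 0 ≤ δ → ∀ A : Hv m → Hv m, StructA p δ lam Lam A →
    ∀ (Ω : Set (Pt N)), IsOpen Ω → ∀ (u : Pt N → ℝ) (F : Pt N → Hv m),
    Sol G (ENNReal.ofReal p) Ω A u F →
    ∃ F' : Pt N → Hv m, (∀ᵐ y, y ∈ Ω → F y = F' y) ∧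
      ∀ K : Set (Pt N), IsCompact K → K ⊆ Ω →
        ∃ C : ℝ, ∀ y ∈ K, ∀ z ∈ K, ‖F' y - F' z‖ ≤ C * ‖y - z‖ ^ α := by
  obtain ⟨c, hc, L, hL, hAA⟩ := structA_AA (m := m) (Lam := Lam) hp hlam
  obtain ⟨α, hα, hα1, κ, hκ, hκ1, hloc⟩ := weak_local G hp hc hL
  have hst : (1 : ℝ) ≤ G.st := by exact_mod_cast G.one_le_st
  refine ⟨α / G.st, by positivity, lt_of_le_of_lt (div_le_self hα.le hst) hα1,
    fun δ hδ A hA Ω hΩ u F hS => reg_of_local G hα hκ hκ1 hΩ fun x R hR hsub => ?_⟩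
  refine hloc δ hδ A (hAA δ hδ A hA) x R hR u F ⟨hS.toHW.mono hsub, fun φ hφ => ?_⟩
  exact hS.eqn φ ⟨hφ.smooth, hφ.cpt, hφ.sub.trans hsub⟩

end Pool.Agent.CG
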